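import Pool.Agent.Lib.MP_b84ebc_co.Game

section

set_option autoImplicit false

/-!
# Counting lower and upper elements of the pairs at level `k`
-/

namespace Pool.Agent.Lib.MP_b84ebc_co

open Finset

/-- Lower elements below `X`. -/
noncomputable def lows (k X : ℕ) : Finset ℕ := (range X).filter (fun b => b ≤ ptn k b)

/-- Upper elements below `X`. -/
noncomputable def ups (k X : ℕ) : Finset ℕ := (range X).filter (fun c => ptn k c < c)

/-- The number of lower elements below `X`. -/
noncomputable def m (k X : ℕ) : ℕ := (lows k X).card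

/-- One more than the largest difference used by a lower element below `X`. -/
noncomputable def F (k X : ℕ) : ℕ := (lows k X).sup (fun b => ptn k b - b + 1)

theorem mem_lows {k X b : ℕ} : b ∈ lows k X ↔ b < X ∧ b ≤ ptn k b := by
  simp [lows]

theorem mem_ups {k X c : ℕ} : c ∈ ups k X ↔ c < X ∧ ptn k c < c := by
  simp [ups]

theorem diff_lt_F {k X b : ℕ} (hb : b < X) (h : b ≤ ptn k b) : ptn k b - b < F k X :=
  Finset.le_sup (f := fun b => ptn k b - b + 1) (mem_lows.mpr ⟨hb, h⟩)

theorem F_mono (k : ℕ) {X Y : ℕ} (h : X ≤ Y) : F k X ≤ F k Y := by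
  unfold F
  apply Finset.sup_mono
  intro b hb
  rw [mem_lows] at hb ⊢
  exact ⟨lt_of_lt_of_le hb.1 h, hb.2⟩

theorem lows_succ_of_low {k X : ℕ} (h : X ≤ ptn k X) : lows k (X + 1) = insert X (lows k X) := by
  ext b
  simp only [mem_lows, mem_insert]
  constructor
  · rintro ⟨h1, h2⟩
    rcases Nat.lt_succ_iff_lt_or_eq.mp h1 with h3 | h3
    · exact Or.inr ⟨h3, h2⟩
    · exact Or.inl h3
  · rintro (rfl | ⟨h1, h2⟩)
    · exact ⟨Nat.lt_succ_self _, h⟩
    · exact ⟨by omega, h2⟩

theorem lows_succ_of_up {k X : ℕ} (h : ptn k X < X) : lows k (X + 1) = lows k X := by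
  ext b
  simp only [mem_lows]
  constructor
  · rintro ⟨h1, h2⟩
    rcases Nat.lt_succ_iff_lt_or_eq.mp h1 with h3 | h3
    · exact ⟨h3, h2⟩
    · subst h3; omega
  · rintro ⟨h1, h2⟩
    exact ⟨by omega, h2⟩

theorem m_zero (k : ℕ) : m k 0 = 0 := by simp [m, lows]

theorem F_zero (k : ℕ) : F k 0 = 0 := by simp [F, lows]

theorem m_succ_of_low {k X : ℕ} (h : X ≤ ptn k X) : m k (X + 1) = m k X + 1 := by
  unfold m
  rw [lows_succ_of_low h, card_insert_of_notMem]
  rw [mem_lows]; omega

theorem m_succ_of_up {k X : ℕ} (h : ptn k X < X) : m k (X + 1) = m k X := by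
  unfold m
  rw [lows_succ_of_up h]

theorem m_succ_le (k X : ℕ) : m k (X + 1) ≤ m k X + 1 := by
  rcases le_or_gt X (ptn k X) with h | h
  · rw [m_succ_of_low h]
  · rw [m_succ_of_up h]; omega

theorem m_mono (k : ℕ) {X Y : ℕ} (h : X ≤ Y) : m k X ≤ m k Y := by
  unfold m
  apply card_le_card
  intro b hb
  rw [mem_lows] at hb ⊢
  exact ⟨lt_of_lt_of_le hb.1 h, hb.2⟩

theorem F_succ_of_low {k X : ℕ} (h : X ≤ ptn k X) :
    F k (X + 1) = max (ptn k X - X + 1) (F k X) := by
  unfold F
  rw [lows_succ_of_low h, sup_insert]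

theorem F_succ_of_up {k X : ℕ} (h : ptn k X < X) : F k (X + 1) = F k X := by
  unfold F
  rw [lows_succ_of_up h]

theorem card_ups_add (k X : ℕ) : (ups k X).card + m k X = X := by
  have h := card_filter_add_card_filter_not (s := range X) (fun b => b ≤ ptn k b)
  rw [card_range] at h
  have e : ups k X = (range X).filter (fun b => ¬ b ≤ ptn k b) := by
    ext c; simp [ups]
  rw [e]
  unfold m lows
  omega

theorem m_le_F (k X : ℕ) : m k X ≤ F k X := by
  unfold m
  rw [← card_range (F k X)]
  apply card_le_card_of_injOn (fun b => ptn k b - b)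
  · intro b hb
    have hb' := mem_lows.mp (mem_coe.mp hb)
    rw [mem_coe, mem_range]
    exact diff_lt_F hb'.1 hb'.2
  · intro b hb b' hb' h
    exact diff_inj (mem_lows.mp (mem_coe.mp hb)).2 (mem_lows.mp (mem_coe.mp hb')).2 h

theorem le_two_m (k X : ℕ) : X ≤ 2 * m k X := by
  have h : (ups k X).card ≤ m k X := by
    unfold m
    apply card_le_card_of_injOn (fun c => ptn k c)
    · intro c hc
      have hc' := mem_ups.mp (mem_coe.mp hc)
      rw [mem_coe, mem_lows, ptn_ptn]
      beta_reduce
      exact ⟨by omega, by omega⟩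
    · intro c _ c' _ h
      exact ptn_inj h
  have := card_ups_add k X
  omega

/-- If `Y + F(Y) ≤ X` then `Y ≤ m(X)`. -/
theorem le_m {k X Y : ℕ} (h : Y + F k Y ≤ X) : Y ≤ m k X := by
  have hc : (ups k X).card ≤ X - Y := by
    rw [← card_range (X - Y)]
    apply card_le_card_of_injOn (fun c => c - ptn k c)
    · intro c hc
      have hc' := mem_ups.mp (mem_coe.mp hc)
      rw [mem_coe, mem_range]
      beta_reduce
      rcases lt_or_ge (ptn k c) Y with hY | hY
      · have := diff_lt_F (k := k) hY (by rw [ptn_ptn]; omega)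
        rw [ptn_ptn] at this
        omega
      · omega
    · intro c hc c' hc' he
      have h1 := mem_ups.mp (mem_coe.mp hc)
      have h2 := mem_ups.mp (mem_coe.mp hc')
      have := diff_inj (k := k) (b := ptn k c) (b' := ptn k c') (by rw [ptn_ptn]; omega)
        (by rw [ptn_ptn]; omega) (by rw [ptn_ptn, ptn_ptn]; exact he)
      exact ptn_inj this
  have := card_ups_add k X
  omega

/-- If `Y + F(Y) ≤ X` then `m(X) + m(Y) ≤ X + 1`. -/
theorem m_add_m_le {k X Y : ℕ} (h : Y + F k Y ≤ X) : m k X + m k Y ≤ X + 1 := by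
  -- the lower elements below `Y` with positive difference
  have h1 : ((lows k Y).filter (fun b => b < ptn k b)).card ≤ (ups k X).card := by
    apply card_le_card_of_injOn (fun b => ptn k b)
    · intro b hb
      rw [mem_coe, mem_filter, mem_lows] at hb
      rw [mem_coe, mem_ups, ptn_ptn]
      beta_reduce
      have := diff_lt_F (k := k) hb.1.1 hb.1.2
      omega
    · intro c _ c' _ h
      exact ptn_inj h
  have h2 : ((lows k Y).filter (fun b => ¬ b < ptn k b)).card ≤ 1 := by
    rw [card_le_one]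
    intro a ha b hb
    rw [mem_filter, mem_lows] at ha hb
    exact diff_inj (k := k) ha.1.2 hb.1.2 (by omega)
  have h3 := card_filter_add_card_filter_not (s := lows k Y) (fun b => b < ptn k b)
  have h4 := card_ups_add k X
  have h5 : (lows k Y).card = m k Y := rfl
  omega

/-- A bound for the differences at which a lower level can block the row `b`. -/
noncomputable def N1 (k b : ℕ) : ℕ := k + (range k).sup (fun k' => F k' (b + 1))

/-- The greedy property: a difference beyond all used ones that the lower element `b` skips is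
blocked by a lower level, hence at most `N1 k b`. -/
theorem greedy {k b n : ℕ} (hF : F k b ≤ n) (hn : b + n < ptn k b) : n ≤ N1 k b := by
  have hnP : ¬ IsP (k, b, b + n) := by
    intro h
    rw [isP_iff_ptn] at h
    omega
  obtain ⟨q, hq, hqP⟩ := (not_isP_iff _).mp hnP
  obtain ⟨x, y, z, hp, h0, h1⟩ := hq
  obtain ⟨k', b', c'⟩ := q
  simp only [Prod.mk.injEq] at hp
  obtain ⟨ha, hb, hc⟩ := hp
  rw [isP_iff_ptn] at hqP
  rcases Nat.eq_zero_or_pos x with rfl | hx
  · exfalso
    have hk : k' = k := by omega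
    subst hk
    rcases Nat.eq_zero_or_pos y with rfl | hy
    · have : b' = b := by omega
      subst this
      omega
    · have hz : z = 0 ∨ z = y := by
        rcases h1 with h | h | h | h
        · left; exact h.2
        · left; exact h.2
        · omega
        · right
          rw [Nat.zero_xor] at h
          have := congrArg (fun t => y ^^^ t) h
          simp only [← Nat.xor_assoc, Nat.xor_self, Nat.xor_zero, Nat.zero_xor] at this
          exact this
      have hlt := diff_lt_F (k := k') (X := b) (b := b') (by omega) (by omega)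
      omega
  · have hk : k' < k := by omega
    have hz : z ≤ x + y := by
      rcases h1 with h | h | h | h
      · omega
      · omega
      · omega
      · have : z = x ^^^ y := by
          have := congrArg (fun t => t ^^^ z) h
          simp only [Nat.xor_assoc, Nat.xor_self, Nat.xor_zero, Nat.zero_xor] at this
          exact this.symm
        rw [this]; exact xor_le_add x y
    have hsup : F k' (b + 1) ≤ (range k).sup (fun k' => F k' (b + 1)) :=
      Finset.le_sup (f := fun k' => F k' (b + 1)) (mem_range.mpr hk)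
    unfold N1
    rcases le_or_gt b' c' with hle | hlt
    · have := diff_lt_F (k := k') (X := b + 1) (b := b') (by omega) (by omega)
      omega
    · omega

/-- How the number of unused differences changes. -/
theorem step (k X : ℕ) :
    F k (X + 1) + m k X ≤ F k X + m k (X + 1) ∨
      (F k (X + 1) ≤ N1 k X + 2 ∧ m k (X + 1) = m k X + 1) := by
  rcases le_or_gt X (ptn k X) with h | h
  · rw [m_succ_of_low h, F_succ_of_low h]
    rcases le_or_gt (ptn k X - X) (F k X) with h1 | h1
    · left
      have : max (ptn k X - X + 1) (F k X) ≤ F k X + 1 := by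
        apply max_le <;> omega
      omega
    · right
      refine ⟨?_, rfl⟩
      have h2 := greedy (k := k) (b := X) (n := F k X) le_rfl (by omega)
      have h3 := greedy (k := k) (b := X) (n := ptn k X - X - 1) (by omega) (by omega)
      apply max_le <;> omega
  · left
    rw [m_succ_of_up h, F_succ_of_up h]

end Pool.Agent.Lib.MP_b84ebc_co
end

section

set_option autoImplicit false

/-!
# Square root bounds for the counting functions
-/

namespace Pool.Agent.Lib.MP_b84ebc_co

open Real

/-- The inverse of the golden ratio. -/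
noncomputable def psi : ℝ := goldenRatio - 1

theorem psi_sq : psi ^ 2 = 1 - psi := by
  unfold psi
  have := goldenRatio_sq
  nlinarith

theorem psi_mul_phi : psi * goldenRatio = 1 := by
  unfold psi
  have := goldenRatio_sq
  nlinarith

theorem psi_lt : psi < 6181 / 10000 := by
  unfold psi goldenRatio
  have h : √5 < 22362 / 10000 := by
    rw [Real.sqrt_lt' (by norm_num)]; norm_num
  linarith

theorem lt_psi : 618 / 1000 < psi := by
  unfold psi goldenRatio
  have h : 2236 / 1000 < √5 := by
    rw [Real.lt_sqrt (by norm_num)]; norm_num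
  linarith

theorem psi_pos : 0 < psi := by linarith [lt_psi]

/-- The discrepancy of the lower elements. -/
noncomputable def mu (k X : ℕ) : ℝ := (m k X : ℝ) - psi * X

/-- The number of unused differences below the front. -/
noncomputable def hh (k X : ℕ) : ℝ := (F k X : ℝ) - m k X

theorem hh_nonneg (k X : ℕ) : 0 ≤ hh k X := by
  unfold hh
  have : (m k X : ℝ) ≤ F k X := by exact_mod_cast m_le_F k X
  linarith

/-- The position one generation before `X`. -/
theorem exists_gen (k X : ℕ) : ∃ Y, Y + F k Y ≤ X ∧ X < Y + 1 + F k (Y + 1) ∧ 3 * Y ≤ 2 * X := by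
  classical
  have h0 : (fun Y => Y + F k Y ≤ X) 0 := by simp [F_zero]
  set Y := Nat.findGreatest (fun Y => Y + F k Y ≤ X) X with hY
  have h1 : Y + F k Y ≤ X :=
    Nat.findGreatest_spec (P := fun Y => Y + F k Y ≤ X) (Nat.zero_le X) h0
  have h2 : X < Y + 1 + F k (Y + 1) := by
    by_contra hcon
    push Not at hcon
    have : Y + 1 ≤ X := by omega
    have := Nat.le_findGreatest (P := fun Y => Y + F k Y ≤ X) this hcon
    omega
  refine ⟨Y, h1, h2, ?_⟩
  have := m_le_F k Y
  have := le_two_m k Y
  omega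

theorem mu_lower {k X Y : ℕ} (h1 : Y + F k Y ≤ X) (h2 : X < Y + 1 + F k (Y + 1)) :
    -mu k X ≤ psi * mu k Y + psi * (1 + hh k (Y + 1)) := by
  have a1 : (Y : ℝ) ≤ m k X := by exact_mod_cast le_m h1
  have a2 : (X : ℝ) ≤ Y + F k (Y + 1) := by
    have : X ≤ Y + F k (Y + 1) := by omega
    exact_mod_cast this
  have a3 : (m k (Y + 1) : ℝ) ≤ m k Y + 1 := by exact_mod_cast m_succ_le k Y
  have a4 : psi * X ≤ psi * (Y + m k Y + 1 + hh k (Y + 1)) := by
    apply mul_le_mul_of_nonneg_left _ psi_pos.le
    unfold hh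
    linarith
  have h3 := psi_sq
  unfold mu
  nlinarith

theorem mu_upper {k X Y : ℕ} (h1 : Y + F k Y ≤ X) (h2 : X < Y + 1 + F k (Y + 1)) :
    mu k X ≤ psi * (-mu k Y) + psi ^ 2 * (1 + hh k (Y + 1)) + 1 := by
  have a1 : (m k X : ℝ) + m k Y ≤ X + 1 := by exact_mod_cast m_add_m_le h1
  have a2 : (X : ℝ) ≤ Y + F k (Y + 1) := by
    have : X ≤ Y + F k (Y + 1) := by omega
    exact_mod_cast this
  have a3 : (m k (Y + 1) : ℝ) ≤ m k Y + 1 := by exact_mod_cast m_succ_le k Y
  have a4 : psi ^ 2 * X ≤ psi ^ 2 * (Y + m k Y + 1 + hh k (Y + 1)) := by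
    apply mul_le_mul_of_nonneg_left _ (sq_nonneg _)
    unfold hh
    linarith
  have h3 := psi_sq
  unfold mu
  rw [h3] at a4 ⊢
  nlinarith

/-- The step inequality for `hh`. -/
theorem hh_step (k X : ℕ) :
    hh k (X + 1) ≤ hh k X ∨ hh k (X + 1) ≤ (N1 k X : ℝ) + 1 - m k X := by
  rcases step k X with h | ⟨h1, h2⟩
  · left
    have : (F k (X + 1) : ℝ) + m k X ≤ F k X + m k (X + 1) := by exact_mod_cast h
    unfold hh; linarith
  · right
    have a1 : (F k (X + 1) : ℝ) ≤ N1 k X + 2 := by exact_mod_cast h1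
    have a2 : (m k (X + 1) : ℝ) = m k X + 1 := by exact_mod_cast h2
    unfold hh; linarith

theorem sqrt_two_thirds {X Y : ℕ} (h : 3 * Y ≤ 2 * X) : √(Y : ℝ) ≤ 49 / 60 * √(X : ℝ) := by
  have h' : (3 : ℝ) * Y ≤ 2 * X := by exact_mod_cast h
  have hX : (0 : ℝ) ≤ X := Nat.cast_nonneg X
  have e : (49 / 60 : ℝ) * √(X : ℝ) = √((49 / 60) ^ 2 * X) := by
    rw [Real.sqrt_mul (by positivity), Real.sqrt_sq (by norm_num)]
  rw [e]
  apply Real.sqrt_le_sqrt
  nlinarith

theorem sqrt_succ_le (Y : ℕ) : √((Y + 1 : ℕ) : ℝ) ≤ √(Y : ℝ) + 1 := by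
  rw [Real.sqrt_le_left (by positivity)]
  have h := Real.sq_sqrt (Nat.cast_nonneg (α := ℝ) Y)
  have h0 := Real.sqrt_nonneg (Y : ℝ)
  push_cast
  nlinarith

/-- The main induction, for one level. -/
theorem level {k : ℕ} {C : ℝ} (hC : 0 ≤ C)
    (hN : ∀ b, (N1 k b : ℝ) ≤ psi * b + C * √((b + 1 : ℕ) : ℝ) + C) :
    ∃ K : ℝ, 1 ≤ K ∧ ∀ X : ℕ, hh k X ≤ K * √(X : ℝ) ∧ -mu k X ≤ 24 / 25 * K * √(X : ℝ) ∧
      mu k X ≤ 83 / 100 * K * √(X : ℝ) := by
  obtain ⟨T, hT⟩ : ∃ T : ℕ, T = 10000 := ⟨_, rfl⟩
  have hTR : (T : ℝ) = 10000 := by rw [hT]; norm_num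
  have hT3 : 3 < T := by rw [hT]; norm_num
  clear hT
  obtain ⟨K, hK⟩ : ∃ K : ℝ, K = 12500 + F k T + 25 * (2 * C + 1) := ⟨_, rfl⟩
  have hF0 : (0 : ℝ) ≤ F k T := Nat.cast_nonneg _
  have hK1 : 12500 ≤ K := by rw [hK]; nlinarith
  have hKF : (F k T : ℝ) ≤ K := by rw [hK]; nlinarith
  have hKC : 25 * (2 * C + 1) ≤ K := by rw [hK]; nlinarith
  refine ⟨K, by linarith, ?_⟩
  intro X
  induction X using Nat.strong_induction_on with
  | _ X ih =>
    have hs0 := Real.sqrt_nonneg (X : ℝ)
    rcases Nat.eq_zero_or_pos X with rfl | hpos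
    · simp [hh, mu, m_zero, F_zero]
    have hX1 : (1 : ℝ) ≤ X := by exact_mod_cast hpos
    have hs1 : 1 ≤ √(X : ℝ) := by rw [Real.one_le_sqrt]; exact hX1
    rcases lt_or_ge X T with hlt | hge
    · -- small values
      have hlt' : (X : ℝ) ≤ 10000 := by rw [← hTR]; exact_mod_cast hlt.le
      have hm1 : (m k X : ℝ) ≤ X := by
        have := card_ups_add k X
        have : m k X ≤ X := by omega
        exact_mod_cast this
      have hm0 : (0 : ℝ) ≤ m k X := Nat.cast_nonneg _
      have hFm : (F k X : ℝ) ≤ F k T := by exact_mod_cast F_mono k hlt.le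
      have hp := psi_pos
      have hp1 := psi_lt
      have hKs : K ≤ K * √(X : ℝ) := by nlinarith
      refine ⟨?_, ?_, ?_⟩
      · unfold hh; linarith
      · unfold mu; nlinarith
      · unfold mu; nlinarith
    · -- large values
      have hs100 : 100 ≤ √(X : ℝ) := by
        rw [Real.le_sqrt' (by norm_num)]
        have : (10000 : ℝ) ≤ X := by rw [← hTR]; exact_mod_cast hge
        linarith
      obtain ⟨Y, hY1, hY2, hY3⟩ := exists_gen k X
      have hYX : Y < X := by omega
      have hYX1 : Y + 1 < X := by omega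
      obtain ⟨ihY1, ihY2, ihY3⟩ := ih Y hYX
      obtain ⟨ihh, -, -⟩ := ih (Y + 1) hYX1
      have hsY := sqrt_two_thirds hY3
      have hsY0 := Real.sqrt_nonneg (Y : ℝ)
      have hsY1 := sqrt_succ_le Y
      have hp := psi_pos
      have hp1 := psi_lt
      have hp2 := lt_psi
      have hpsq := psi_sq
      have hK0 : 0 < K := by linarith
      have hhY : hh k (Y + 1) ≤ K * √(Y : ℝ) + K := by
        refine ihh.trans ?_
        have := mul_le_mul_of_nonneg_left hsY1 hK0.le
        linarith
      have hKsY : K * √(Y : ℝ) ≤ K * (49 / 60 * √(X : ℝ)) := mul_le_mul_of_nonneg_left hsY hK0.le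
      have hKs : 100 * K ≤ K * √(X : ℝ) := by nlinarith
      have hKsY0 : 0 ≤ K * √(Y : ℝ) := by positivity
      refine ⟨?_, ?_, ?_⟩
      · -- the number of unused differences
        obtain ⟨Z, rfl⟩ : ∃ Z, X = Z + 1 := ⟨X - 1, by omega⟩
        obtain ⟨ihZ1, ihZ2, -⟩ := ih Z (by omega)
        have hsZ : √(Z : ℝ) ≤ √((Z + 1 : ℕ) : ℝ) := by
          apply Real.sqrt_le_sqrt; push_cast; linarith
        have hKZ : K * √(Z : ℝ) ≤ K * √((Z + 1 : ℕ) : ℝ) := mul_le_mul_of_nonneg_left hsZ hK0.le
        rcases hh_step k Z with h | h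
        · exact h.trans (ihZ1.trans hKZ)
        · have hNZ := hN Z
          have e : (m k Z : ℝ) = mu k Z + psi * Z := by unfold mu; ring
          rw [e] at h
          have hCs : (2 * C + 1) ≤ (2 * C + 1) * √((Z + 1 : ℕ) : ℝ) := by
            nlinarith
          have hKC' : 25 * (2 * C + 1) * √((Z + 1 : ℕ) : ℝ) ≤ K * √((Z + 1 : ℕ) : ℝ) :=
            mul_le_mul_of_nonneg_right hKC hs0
          nlinarith
      · -- lower bound for the discrepancy
        have h := mu_lower hY1 hY2
        have b1 : psi * mu k Y ≤ psi * (83 / 100 * K * √(Y : ℝ)) :=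
          mul_le_mul_of_nonneg_left ihY3 hp.le
        have b2 : psi * (1 + hh k (Y + 1)) ≤ psi * (1 + (K * √(Y : ℝ) + K)) :=
          mul_le_mul_of_nonneg_left (by linarith) hp.le
        have b3 : psi * (183 / 100 * (K * √(Y : ℝ)) + (1 + K)) ≤
            6181 / 10000 * (183 / 100 * (K * √(Y : ℝ)) + (1 + K)) :=
          mul_le_mul_of_nonneg_right hp1.le (by linarith)
        nlinarith
      · -- upper bound for the discrepancy
        have h := mu_upper hY1 hY2
        have b1 : psi * (-mu k Y) ≤ psi * (24 / 25 * K * √(Y : ℝ)) :=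
          mul_le_mul_of_nonneg_left ihY2 hp.le
        have b2 : psi ^ 2 * (1 + hh k (Y + 1)) ≤ psi ^ 2 * (1 + (K * √(Y : ℝ) + K)) :=
          mul_le_mul_of_nonneg_left (by linarith) (sq_nonneg _)
        have b3 : psi * (24 / 25 * K * √(Y : ℝ)) ≤ 6181 / 10000 * (24 / 25 * K * √(Y : ℝ)) :=
          mul_le_mul_of_nonneg_right hp1.le (by linarith)
        have b4 : psi ^ 2 * (1 + (K * √(Y : ℝ) + K)) ≤ 382 / 1000 * (1 + (K * √(Y : ℝ) + K)) :=
          mul_le_mul_of_nonneg_right (by rw [hpsq]; linarith) (by linarith)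
        nlinarith

/-- The bounds hold at every level. -/
theorem all_levels (k : ℕ) : ∃ C : ℝ, 0 ≤ C ∧ ∀ k' < k, ∀ X : ℕ,
    (F k' X : ℝ) ≤ psi * X + C * √(X : ℝ) ∧ hh k' X ≤ C * √(X : ℝ) ∧
      psi * X - C * √(X : ℝ) ≤ (m k' X : ℝ) := by
  induction k with
  | zero => exact ⟨0, le_rfl, fun k' h => absurd h (Nat.not_lt_zero _)⟩
  | succ k ih =>
    obtain ⟨C, hC0, hC⟩ := ih
    have hN : ∀ b, (N1 k b : ℝ) ≤ psi * b + (C + k + 1) * √((b + 1 : ℕ) : ℝ) + (C + k + 1) := by
      intro b
      have hk0 : (0 : ℝ) ≤ k := Nat.cast_nonneg _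
      have hb0 : (0 : ℝ) ≤ b := Nat.cast_nonneg _
      have hs := Real.sqrt_nonneg ((b + 1 : ℕ) : ℝ)
      have hp := psi_pos
      have hp1 := psi_lt
      have hsup : (((Finset.range k).sup (fun k' => F k' (b + 1)) : ℕ) : ℝ) ≤
          psi * (b + 1) + C * √((b + 1 : ℕ) : ℝ) := by
        by_cases hk : (Finset.range k).Nonempty
        · obtain ⟨k', hk', he⟩ := Finset.exists_mem_eq_sup (Finset.range k) hk
            (fun k' => F k' (b + 1))
          rw [he]
          have := (hC k' (Finset.mem_range.mp hk') (b + 1)).1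
          push_cast at this ⊢
          exact this
        · rw [Finset.not_nonempty_iff_eq_empty] at hk
          rw [hk]
          simp only [Finset.sup_empty, Nat.bot_eq_zero, Nat.cast_zero]
          positivity
      unfold N1
      have hs1 : 1 ≤ √((b + 1 : ℕ) : ℝ) := by
        rw [Real.one_le_sqrt]; push_cast; linarith
      rw [Nat.cast_add]
      nlinarith
    obtain ⟨K, hK1, hK⟩ := level (k := k) (C := C + k + 1) (by positivity) hN
    refine ⟨C + 2 * K, by linarith, ?_⟩
    intro k' hk' X
    have hs := Real.sqrt_nonneg (X : ℝ)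
    rcases Nat.lt_succ_iff_lt_or_eq.mp hk' with h | h
    · obtain ⟨h1, h2, h3⟩ := hC k' h X
      have : 0 ≤ K * √(X : ℝ) := by positivity
      refine ⟨by nlinarith, by nlinarith, by nlinarith⟩
    · subst h
      obtain ⟨h1, h2, h3⟩ := hK X
      have e : (m k' X : ℝ) = mu k' X + psi * X := by unfold mu; ring
      have e2 : (F k' X : ℝ) = hh k' X + m k' X := by unfold hh; ring
      have hCs : 0 ≤ C * √(X : ℝ) := by positivity
      have hKs : 0 ≤ K * √(X : ℝ) := by positivity
      refine ⟨?_, by nlinarith, ?_⟩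
      · rw [e2, e]; nlinarith
      · rw [e]; nlinarith

end Pool.Agent.Lib.MP_b84ebc_co
end

section

set_option autoImplicit false

/-!
# Double counting
-/

namespace Pool.Agent.Lib.MP_b84ebc_co

open Real Finset

theorem le_two_goldenRatio_mul {n N : ℕ} (h : n < N) : goldenRatio * n ≤ 2 * N := by
  have h1 : (n : ℝ) ≤ N := by exact_mod_cast h.le
  have h2 := goldenRatio_lt_two
  have h3 := goldenRatio_pos
  have h4 : (0 : ℝ) ≤ n := Nat.cast_nonneg n
  nlinarith

/-- The number of unused differences below the front is at least the number of elements of any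
set of differences below the front none of which is used by a lower element below `x`. -/
theorem card_le_hh {k x : ℕ} {S : Finset ℕ} (h1 : ∀ n ∈ S, n < F k x)
    (h2 : ∀ n ∈ S, ∀ b < x, ¬ IsP (k, b, b + n)) : (S.card : ℝ) ≤ hh k x := by
  have hd : Disjoint S ((lows k x).image (fun b => ptn k b - b)) := by
    rw [Finset.disjoint_left]
    intro n hn hn'
    rw [mem_image] at hn'
    obtain ⟨b, hb, he⟩ := hn'
    rw [mem_lows] at hb
    apply h2 n hn b hb.1
    rw [isP_iff_ptn]; omega
  have hsub : S ∪ (lows k x).image (fun b => ptn k b - b) ⊆ range (F k x) := by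
    intro n hn
    rw [mem_union, mem_image] at hn
    rw [mem_range]
    rcases hn with hn | ⟨b, hb, rfl⟩
    · exact h1 n hn
    · rw [mem_lows] at hb
      exact diff_lt_F hb.1 hb.2
  have hc := card_le_card hsub
  rw [card_union_of_disjoint hd, card_range, card_image_of_injOn] at hc
  · have : (S.card : ℝ) + m k x ≤ F k x := by
      unfold m
      exact_mod_cast hc
    unfold hh; linarith
  · intro b hb b' hb' h
    exact diff_inj (mem_lows.mp (mem_coe.mp hb)).2 (mem_lows.mp (mem_coe.mp hb')).2 h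

open Classical in
/-- The main theorem, for given constants. -/
theorem main (k : ℕ) : ∃ K : ℝ, 0 < K ∧ ∀ N L : ℕ, 1 ≤ L → L ≤ N →
    (((range N).filter (fun n => ¬ ∃ B, k ≤ B ∧ IsP (k, B, B + n) ∧
      |(B : ℝ) - goldenRatio * n| ≤ K * L)).card : ℝ) * L ≤ K * (N * √(N : ℝ)) := by
  classical
  obtain ⟨C, hC0, hC⟩ := all_levels (k + 1)
  have hC' := hC k (Nat.lt_succ_self k)
  clear hC
  -- constants
  obtain ⟨D, hD⟩ : ∃ D : ℝ, D = C + 1 := ⟨_, rfl⟩
  have hD1 : 1 ≤ D := by linarith
  obtain ⟨E, hE⟩ : ∃ E : ℝ, E = 16 * D ^ 2 := ⟨_, rfl⟩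
  have hE16 : 16 ≤ E := by rw [hE]; nlinarith
  obtain ⟨R, hR⟩ : ∃ R : ℝ, R = E + 7 := ⟨_, rfl⟩
  have hk0 : (0 : ℝ) ≤ k := Nat.cast_nonneg k
  obtain ⟨K, hK⟩ : ∃ K : ℝ, K = k + 1 + 4 * D + E + 3 + C * R * √R := ⟨_, rfl⟩
  have hRs := Real.sqrt_nonneg R
  have hCR : 0 ≤ C * R * √R := by
    have : 0 ≤ R := by linarith
    positivity
  have hK1 : 1 ≤ K := by linarith
  refine ⟨K, by linarith, ?_⟩
  intro N L hL hLN
  have hN1 : 1 ≤ N := le_trans hL hLN
  have hN1R : (1 : ℝ) ≤ N := by exact_mod_cast hN1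
  have hL1R : (1 : ℝ) ≤ L := by exact_mod_cast hL
  have hLNR : (L : ℝ) ≤ N := by exact_mod_cast hLN
  have hsN0 := Real.sqrt_nonneg (N : ℝ)
  have hsN1 : 1 ≤ √(N : ℝ) := by rw [Real.one_le_sqrt]; exact hN1R
  have hsNN : √(N : ℝ) * √(N : ℝ) = N := Real.mul_self_sqrt (by linarith)
  have hsNle : √(N : ℝ) ≤ N := by nlinarith
  set BAD := (range N).filter (fun n => ¬ ∃ B, k ≤ B ∧ IsP (k, B, B + n) ∧
      |(B : ℝ) - goldenRatio * n| ≤ K * L) with hBAD
  rcases lt_or_ge (L : ℝ) (√(N : ℝ)) with hsmall | hbig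
  · -- trivial case
    have h1 : (BAD.card : ℝ) ≤ N := by
      have : BAD.card ≤ N := by
        have := card_filter_le (range N) (fun n => ¬ ∃ B, k ≤ B ∧ IsP (k, B, B + n) ∧
          |(B : ℝ) - goldenRatio * n| ≤ K * L)
        rw [card_range] at this
        exact this
      exact_mod_cast this
    have h2 : (BAD.card : ℝ) * L ≤ N * √(N : ℝ) :=
      mul_le_mul h1 hsmall.le (by linarith) (by linarith)
    have h3 : 0 ≤ (N : ℝ) * √(N : ℝ) := by positivity
    nlinarith
  -- the set of late or missing differences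
  set S := (range N).filter (fun n => ∀ B, IsP (k, B, B + n) → goldenRatio * n + K * L < B) with hS
  have hsub : BAD ⊆ (range k).image (fun B => ptn k B - B) ∪ S := by
    intro n hn
    rw [hBAD, mem_filter, mem_range] at hn
    obtain ⟨hnN, hno⟩ := hn
    rw [mem_union]
    by_cases hnS : n ∈ S
    · exact Or.inr hnS
    · left
      rw [hS, mem_filter, mem_range] at hnS
      push Not at hnS hno
      obtain ⟨B, hBP, hB⟩ := hnS hnN
      have hptn : ptn k B = B + n := isP_iff_ptn.mp hBP
      rw [mem_image]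
      refine ⟨B, ?_, by omega⟩
      rw [mem_range]
      by_contra hkB
      push Not at hkB
      have habs := hno B hkB hBP
      rw [lt_abs] at habs
      have hB2 : (B : ℝ) < goldenRatio * n - K * L := by
        rcases habs with h | h
        · linarith
        · linarith
      -- the lower bound for `B`
      have hlt := diff_lt_F (k := k) (X := B + 1) (b := B) (by omega) (by omega)
      have hn1 : n < F k (B + 1) := by omega
      have hn2 : (n : ℝ) ≤ F k (B + 1) := by exact_mod_cast hn1.le
      have hF := (hC' (B + 1)).1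
      have hgn := le_two_goldenRatio_mul hnN
      have hKL : 0 ≤ K * L := by positivity
      have hB3 : (B : ℝ) + 1 ≤ 4 * N := by linarith
      have hs : √((B + 1 : ℕ) : ℝ) ≤ 2 * √(N : ℝ) := by
        rw [show (2 : ℝ) * √(N : ℝ) = √(4 * N) by
          rw [Real.sqrt_mul (by norm_num)]
          congr 1
          rw [show (4 : ℝ) = 2 ^ 2 by norm_num, Real.sqrt_sq (by norm_num)]]
        apply Real.sqrt_le_sqrt
        push_cast; linarith
      have hphi := psi_mul_phi
      have hg0 := goldenRatio_pos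
      have hg2 := goldenRatio_lt_two
      have h5 : goldenRatio * n ≤ (B + 1) + 2 * (C * (2 * √(N : ℝ))) := by
        have h6 : (n : ℝ) ≤ psi * (B + 1) + C * (2 * √(N : ℝ)) := by
          have := mul_le_mul_of_nonneg_left hs hC0
          push_cast at hF this
          linarith
        have h7 : goldenRatio * n ≤ goldenRatio * (psi * (B + 1) + C * (2 * √(N : ℝ))) :=
          mul_le_mul_of_nonneg_left h6 hg0.le
        have h8 : 0 ≤ C * (2 * √(N : ℝ)) := by positivity
        have h9 : goldenRatio * (C * (2 * √(N : ℝ))) ≤ 2 * (C * (2 * √(N : ℝ))) :=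
          mul_le_mul_of_nonneg_right hg2.le h8
        have h10 : goldenRatio * (psi * (B + 1)) = B + 1 := by
          rw [← mul_assoc, mul_comm goldenRatio psi, hphi, one_mul]
        rw [mul_add, h10] at h7
        linarith
      have h11 : C * √(N : ℝ) ≤ C * L := mul_le_mul_of_nonneg_left hbig hC0
      have h12 : (4 * D + 1) * L ≤ K * L := by
        apply mul_le_mul_of_nonneg_right _ (by linarith)
        linarith
      have h13 : 4 * (C * L) + L ≤ (4 * D + 1) * L := by rw [hD]; nlinarith
      linarith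
  -- the starting points
  set a : ℕ → ℕ := fun n => ⌈goldenRatio * (n : ℝ)⌉₊ + ⌈E * √(N : ℝ)⌉₊ with ha
  have hg0 := goldenRatio_pos
  have ha1 : ∀ n : ℕ, goldenRatio * n + E * √(N : ℝ) ≤ a n := by
    intro n
    have h1 := Nat.le_ceil (goldenRatio * (n : ℝ))
    have h2 := Nat.le_ceil (E * √(N : ℝ))
    rw [ha]; push_cast; linarith
  have ha2 : ∀ n : ℕ, (a n : ℝ) ≤ goldenRatio * n + E * √(N : ℝ) + 2 := by
    intro n
    have h1 := Nat.ceil_lt_add_one (show 0 ≤ goldenRatio * (n : ℝ) by positivity)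
    have h2 := Nat.ceil_lt_add_one (show 0 ≤ E * √(N : ℝ) by positivity)
    rw [ha]; push_cast; linarith
  have hEs : E * √(N : ℝ) ≤ E * N := mul_le_mul_of_nonneg_left hsNle (by linarith)
  -- beyond `a n` the front is beyond `n`
  have hfront : ∀ n < N, n < F k (a n) := by
    intro n hn
    have h1 := (hC' (a n)).2.2
    have h2 : (m k (a n) : ℝ) ≤ F k (a n) := by exact_mod_cast m_le_F k (a n)
    have hgn := le_two_goldenRatio_mul hn
    have h3 : (a n : ℝ) ≤ (E + 4) * N := by
      have := ha2 n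
      nlinarith
    have h4 : √(a n : ℝ) ≤ 6 * D * √(N : ℝ) := by
      have e : 6 * D * √(N : ℝ) = √((6 * D) ^ 2 * N) := by
        rw [Real.sqrt_mul (by positivity), Real.sqrt_sq (by positivity)]
      rw [e]
      apply Real.sqrt_le_sqrt
      refine h3.trans ?_
      apply mul_le_mul_of_nonneg_right _ (by linarith)
      rw [hE]; nlinarith
    have h5 : C * √(a n : ℝ) ≤ D * (6 * D * √(N : ℝ)) := by
      apply mul_le_mul _ h4 (Real.sqrt_nonneg _) (by linarith)
      linarith
    have h6 : psi * (goldenRatio * n + E * √(N : ℝ)) ≤ psi * a n :=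
      mul_le_mul_of_nonneg_left (ha1 n) psi_pos.le
    have h7 : psi * (goldenRatio * n) = n := by rw [← mul_assoc, psi_mul_phi, one_mul]
    have h8 : 618 / 1000 * (E * √(N : ℝ)) ≤ psi * (E * √(N : ℝ)) := by
      apply mul_le_mul_of_nonneg_right lt_psi.le
      have : 0 ≤ E := by linarith
      positivity
    have h9 : (n : ℝ) < F k (a n) := by
      have h10 : 0 < D ^ 2 * √(N : ℝ) := by positivity
      rw [mul_add, h7] at h6
      rw [hE] at h8 h6
      nlinarith
    exact_mod_cast h9
  set T : ℕ := 2 * N + ⌈E * √(N : ℝ)⌉₊ + 1 + L with hT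
  have haT : ∀ n < N, a n + L ≤ T := by
    intro n hn
    have h1 : ⌈goldenRatio * (n : ℝ)⌉₊ ≤ 2 * N := by
      apply Nat.ceil_le.mpr
      push_cast
      exact le_two_goldenRatio_mul hn
    rw [hT, ha]; simp only; omega
  have hTR : (T : ℝ) ≤ R * N := by
    have h2 := Nat.ceil_lt_add_one (show 0 ≤ E * √(N : ℝ) by
      have : 0 ≤ E := by linarith
      positivity)
    rw [hT, hR]; push_cast
    nlinarith
  -- double counting
  have hcount : (S.card : ℝ) * L ≤ ∑ x ∈ range T, hh k x := by
    have h1 : S.card * L = ∑ n ∈ S, ((range T).filter (fun x => a n ≤ x ∧ x < a n + L)).card := by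
      rw [← smul_eq_mul, ← sum_const]
      apply sum_congr rfl
      intro n hn
      have hnN : n < N := by
        rw [hS, mem_filter, mem_range] at hn; exact hn.1
      have e : (range T).filter (fun x => a n ≤ x ∧ x < a n + L) = Ico (a n) (a n + L) := by
        ext x
        simp only [mem_filter, mem_range, mem_Ico]
        have := haT n hnN
        omega
      rw [e, Nat.card_Ico]; omega
    have h2 : ∑ n ∈ S, ((range T).filter (fun x => a n ≤ x ∧ x < a n + L)).card =
        ∑ x ∈ range T, (S.filter (fun n => a n ≤ x ∧ x < a n + L)).card := by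
      simp only [card_filter]
      rw [sum_comm]
    have h3 : (S.card : ℝ) * L =
        ∑ x ∈ range T, ((S.filter (fun n => a n ≤ x ∧ x < a n + L)).card : ℝ) := by
      have h12 := h1.trans h2
      have := congrArg (fun t : ℕ => (t : ℝ)) h12
      push_cast at this
      exact this
    rw [h3]
    apply sum_le_sum
    intro x _
    apply card_le_hh
    · intro n hn
      rw [mem_filter, hS, mem_filter, mem_range] at hn
      exact lt_of_lt_of_le (hfront n hn.1.1) (F_mono k hn.2.1)
    · intro n hn b hb hP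
      rw [mem_filter, hS, mem_filter, mem_range] at hn
      have h4 := hn.1.2 b hP
      have h5 : (b : ℝ) < x := by exact_mod_cast hb
      have h6 : (x : ℝ) < a n + L := by exact_mod_cast hn.2.2
      have h7 := ha2 n
      have h8 : E * √(N : ℝ) ≤ E * L := mul_le_mul_of_nonneg_left hbig (by linarith)
      have h9 : (E + 3) * L ≤ K * L := by
        apply mul_le_mul_of_nonneg_right _ (by linarith)
        linarith
      nlinarith
  have hsum : ∑ x ∈ range T, hh k x ≤ C * R * √R * (N * √(N : ℝ)) := by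
    have hR0 : 0 ≤ R := by linarith
    have h1 : ∀ x ∈ range T, hh k x ≤ C * √(R * N) := by
      intro x hx
      refine ((hC' x).2.1).trans ?_
      apply mul_le_mul_of_nonneg_left _ hC0
      apply Real.sqrt_le_sqrt
      have : (x : ℝ) ≤ T := by exact_mod_cast (mem_range.mp hx).le
      linarith
    have h2 := sum_le_card_nsmul (range T) (fun x => hh k x) _ h1
    rw [card_range, nsmul_eq_mul] at h2
    refine h2.trans ?_
    rw [Real.sqrt_mul hR0]
    have h3 : 0 ≤ C * (√R * √(N : ℝ)) := by positivity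
    calc (T : ℝ) * (C * (√R * √(N : ℝ))) ≤ (R * N) * (C * (√R * √(N : ℝ))) :=
          mul_le_mul_of_nonneg_right hTR h3
      _ = _ := by ring
  have hcard : (BAD.card : ℝ) ≤ k + S.card := by
    have h1 := card_le_card hsub
    have h2 := card_union_le ((range k).image (fun B => ptn k B - B)) S
    have h3 : ((range k).image (fun B => ptn k B - B)).card ≤ k := by
      refine card_image_le.trans ?_
      rw [card_range]
    have : BAD.card ≤ k + S.card := by omega
    exact_mod_cast this
  have hNs : (N : ℝ) ≤ N * √(N : ℝ) := by nlinarith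
  calc (BAD.card : ℝ) * L ≤ (k + S.card) * L := mul_le_mul_of_nonneg_right hcard (by linarith)
    _ = k * L + S.card * L := by ring
    _ ≤ k * (N * √(N : ℝ)) + C * R * √R * (N * √(N : ℝ)) := by
        have h1 : (k : ℝ) * L ≤ k * (N * √(N : ℝ)) :=
          mul_le_mul_of_nonneg_left (hLNR.trans hNs) hk0
        linarith
    _ ≤ K * (N * √(N : ℝ)) := by
        rw [hK]
        have : 0 ≤ (N : ℝ) * √(N : ℝ) := by positivity
        nlinarith

end Pool.Agent.Lib.MP_b84ebc_co
end
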