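import Mathlib

set_option autoImplicit false

/-!
# Three-heap Wythoff: the game, its P-positions, partners
-/

namespace Pool.Agent.Lib.MP_b84ebc_co

/-- A move of three-heap Wythoff from `p` to `q`: it removes `x`, `y`, `z` tokens, not all zero,
from the three heaps; either at most one heap is touched, or the nim sum of `x`, `y`, `z` is `0`. -/
def Move (p q : ℕ × ℕ × ℕ) : Prop :=
  ∃ x y z : ℕ, p = (q.1 + x, q.2.1 + y, q.2.2 + z) ∧ (x ≠ 0 ∨ y ≠ 0 ∨ z ≠ 0) ∧
    ((y = 0 ∧ z = 0) ∨ (x = 0 ∧ z = 0) ∨ (x = 0 ∧ y = 0) ∨ x ^^^ y ^^^ z = 0)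

theorem Move.lt {p q : ℕ × ℕ × ℕ} (h : Move p q) : q.1 + q.2.1 + q.2.2 < p.1 + p.2.1 + p.2.2 := by
  obtain ⟨x, y, z, rfl, h0, -⟩ := h
  simp only
  omega

/-- The P-positions, in normal play: no move leads to a P-position. -/
def IsP (p : ℕ × ℕ × ℕ) : Prop :=
  ∀ q, Move p q → ¬ IsP q
termination_by p.1 + p.2.1 + p.2.2
decreasing_by exact Move.lt (by assumption)

theorem isP_iff (p : ℕ × ℕ × ℕ) : IsP p ↔ ∀ q, Move p q → ¬ IsP q := by
  rw [IsP]

theorem not_isP_iff (p : ℕ × ℕ × ℕ) : ¬ IsP p ↔ ∃ q, Move p q ∧ IsP q := by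
  rw [isP_iff]; push Not; rfl

theorem IsP.not_move {p q : ℕ × ℕ × ℕ} (hp : IsP p) (h : Move p q) : ¬ IsP q :=
  (isP_iff p).mp hp q h

/-- Exchange of the last two heaps. -/
def sw (p : ℕ × ℕ × ℕ) : ℕ × ℕ × ℕ := (p.1, p.2.2, p.2.1)

theorem sw_sw (p : ℕ × ℕ × ℕ) : sw (sw p) = p := rfl

theorem Move.sw {p q : ℕ × ℕ × ℕ} (h : Move p q) : Move (sw p) (sw q) := by
  obtain ⟨x, y, z, rfl, h0, h1⟩ := h
  refine ⟨x, z, y, rfl, by tauto, ?_⟩
  rcases h1 with h | h | h | h
  · tauto
  · tauto
  · tauto
  · right; right; right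
    rw [Nat.xor_assoc, Nat.xor_comm z y, ← Nat.xor_assoc]; exact h

theorem isP_sw_aux (s : ℕ) : ∀ p : ℕ × ℕ × ℕ, p.1 + p.2.1 + p.2.2 ≤ s → (IsP (sw p) ↔ IsP p) := by
  induction s with
  | zero =>
    intro p hp
    have : p = (0, 0, 0) := by
      obtain ⟨a, b, c⟩ := p
      simp only at hp
      simp only [Prod.mk.injEq]
      omega
    subst this
    rfl
  | succ s ih =>
    intro p hp
    rw [isP_iff, isP_iff]
    constructor
    · intro h q hq hqP
      have hlt := hq.lt
      exact h (sw q) hq.sw ((ih q (by omega)).mpr hqP)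
    · intro h q hq hqP
      have hq' : Move p (sw q) := by
        have := hq.sw
        rwa [sw_sw] at this
      have hlt := hq'.lt
      have := (ih (sw q) (by omega))
      rw [sw_sw] at this
      exact h (sw q) hq' (this.mp hqP)

theorem isP_swap {a b c : ℕ} : IsP (a, b, c) ↔ IsP (a, c, b) :=
  (isP_sw_aux _ (a, c, b) le_rfl)

/-- In a row there is at most one P-position. -/
theorem row_unique {a b c c' : ℕ} (h : IsP (a, b, c)) (h' : IsP (a, b, c')) : c = c' := by
  rcases lt_trichotomy c c' with hlt | heq | hlt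
  · exfalso
    refine h'.not_move (q := (a, b, c)) ⟨0, 0, c' - c, ?_, ?_, ?_⟩ h
    · simp; omega
    · right; right; omega
    · right; right; left; exact ⟨rfl, rfl⟩
  · exact heq
  · exfalso
    refine h.not_move (q := (a, b, c')) ⟨0, 0, c - c', ?_, ?_, ?_⟩ h'
    · simp; omega
    · right; right; omega
    · right; right; left; exact ⟨rfl, rfl⟩

/-- On a diagonal there is at most one P-position. -/
theorem diag_unique {a b b' n : ℕ} (h : IsP (a, b, b + n)) (h' : IsP (a, b', b' + n)) :
    b = b' := by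
  rcases lt_trichotomy b b' with hlt | heq | hlt
  · exfalso
    refine h'.not_move (q := (a, b, b + n)) ⟨0, b' - b, b' - b, ?_, ?_, ?_⟩ h
    · simp; omega
    · right; left; omega
    · right; right; right; simp
  · exact heq
  · exfalso
    refine h.not_move (q := (a, b', b' + n)) ⟨0, b - b', b - b', ?_, ?_, ?_⟩ h'
    · simp; omega
    · right; left; omega
    · right; right; right; simp

/-- Every row contains a P-position. -/
theorem row_exists (a b : ℕ) : ∃ c, IsP (a, b, c) := by
  classical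
  by_contra hno
  push Not at hno
  -- the third coordinate of the P-position in the row `(a', b')`, if any
  let g : ℕ → ℕ → ℕ := fun a' b' => if h : ∃ c, IsP (a', b', c) then h.choose else 0
  have hg : ∀ a' b' c, IsP (a', b', c) → c = g a' b' := by
    intro a' b' c h
    have hex : ∃ c, IsP (a', b', c) := ⟨c, h⟩
    have : g a' b' = hex.choose := by simp only [g, dif_pos hex]
    rw [this]
    exact row_unique h hex.choose_spec
  let M : ℕ := (Finset.range (a + 1) ×ˢ Finset.range (b + 1)).sup
    (fun t => g t.1 t.2 + ((a - t.1) ^^^ (b - t.2)))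
  obtain ⟨q, hq, hqP⟩ := (not_isP_iff _).mp (hno (M + 1))
  obtain ⟨x, y, z, hp, h0, h1⟩ := hq
  obtain ⟨a', b', c'⟩ := q
  simp only [Prod.mk.injEq] at hp
  obtain ⟨ha, hb, hc⟩ := hp
  have hgc := hg a' b' c' hqP
  have hM : g a' b' + ((a - a') ^^^ (b - b')) ≤ M := by
    have := Finset.le_sup (s := Finset.range (a + 1) ×ˢ Finset.range (b + 1))
      (f := fun t : ℕ × ℕ => g t.1 t.2 + ((a - t.1) ^^^ (b - t.2)))
      (show (a', b') ∈ Finset.range (a + 1) ×ˢ Finset.range (b + 1) by
        simp; omega)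
    exact this
  have hx : a - a' = x := by omega
  have hy : b - b' = y := by omega
  rw [hx, hy] at hM
  -- the same row is impossible
  have hxy : x ≠ 0 ∨ y ≠ 0 := by
    by_contra hcon
    push Not at hcon
    obtain ⟨rfl, rfl⟩ := hcon
    apply hno c'
    simp only [add_zero] at ha hb
    rw [ha, hb]; exact hqP
  have hz : z ≤ x ^^^ y := by
    rcases h1 with h | h | h | h
    · omega
    · omega
    · omega
    · have : x ^^^ y = z := by
        have := congrArg (fun t => t ^^^ z) h
        simp only [Nat.xor_assoc, Nat.xor_self, Nat.xor_zero, Nat.zero_xor] at this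
        exact this
      omega
  omega

/-- The partner of `b` at level `k`: the unique `c` such that `(k, b, c)` is a P-position. -/
noncomputable def ptn (k b : ℕ) : ℕ := (row_exists k b).choose

theorem ptn_spec (k b : ℕ) : IsP (k, b, ptn k b) := (row_exists k b).choose_spec

theorem isP_iff_ptn {k b c : ℕ} : IsP (k, b, c) ↔ ptn k b = c := by
  constructor
  · intro h; exact row_unique (ptn_spec k b) h
  · intro h; rw [← h]; exact ptn_spec k b

theorem ptn_ptn (k b : ℕ) : ptn k (ptn k b) = b := by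
  rw [← isP_iff_ptn, isP_swap]; exact ptn_spec k b

theorem ptn_inj {k b b' : ℕ} (h : ptn k b = ptn k b') : b = b' := by
  rw [← ptn_ptn k b, h, ptn_ptn]

/-- Two lower elements with the same difference are equal. -/
theorem diff_inj {k b b' : ℕ} (hb : b ≤ ptn k b) (hb' : b' ≤ ptn k b')
    (h : ptn k b - b = ptn k b' - b') : b = b' := by
  apply diag_unique (a := k) (n := ptn k b - b)
  · rw [show b + (ptn k b - b) = ptn k b by omega]; exact ptn_spec k b
  · rw [h, show b' + (ptn k b' - b') = ptn k b' by omega]; exact ptn_spec k b'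

theorem xor_le_add (x y : ℕ) : x ^^^ y ≤ x + y := by
  induction x using Nat.strong_induction_on generalizing y with
  | _ x ih =>
    rcases Nat.eq_zero_or_pos x with rfl | hx
    · simp
    · have h1 := ih (x / 2) (by omega) (y / 2)
      have h2 : (x ^^^ y) / 2 = x / 2 ^^^ y / 2 := Nat.xor_div_two
      have h3 : (x ^^^ y) % 2 = (x + y) % 2 := Nat.xor_mod_two_eq
      omega

end Pool.Agent.Lib.MP_b84ebc_co
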